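import Mathlib

set_option autoImplicit false

namespace Pool.Agent.Results.MP_bb83f1_co.No

/-- `CopWin M c r`: the cops stand at `c`, the robber at `r`, the cops are to move, every player
moves along the relation `M` on each turn, and the cops can force a capture. -/
inductive CopWin {V : Type} (M : V → V → Prop) {k : ℕ} : (Fin k → V) → V → Prop
  | caught (c : Fin k → V) (r : V) : (∃ i, c i = r) → CopWin M c r
  | capture (c c' : Fin k → V) (r : V) : (∀ i, M (c i) (c' i)) → (∃ i, c' i = r) → CopWin M c r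
  | step (c c' : Fin k → V) (r : V) : (∀ i, M (c i) (c' i)) → (∀ r', M r r' → CopWin M c' r') →
      CopWin M c r

/-- The least number of cops that win from some start against every start of the robber. -/
noncomputable def copNum {V : Type} (M : V → V → Prop) : ℕ :=
  sInf {k | ∃ c : Fin k → V, ∀ r, CopWin M c r}

/-- Vertices: a hub, `81` connectors and `18` triangles. -/
inductive V
  | h
  | s (i j : Fin 9)
  | c (b : Bool) (i : Fin 9) (t : Fin 3)
  deriving DecidableEq, Fintype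

open V

def c0 : Fin 9 → Fin 3 := ![0, 0, 1, 0, 1, 2, 2, 2, 1]

def adj : V → V → Prop
  | h, s _ _ => True
  | s _ _, h => True
  | s i j, c b k t => k = cond b j i ∧ t = c0 (cond b i j - k)
  | c b k t, s i j => k = cond b j i ∧ t = c0 (cond b i j - k)
  | c b i t, c b' i' t' => b = b' ∧ i = i' ∧ t ≠ t'
  | _, _ => False

lemma adj_symm {x y : V} : adj x y → adj y x := by
  cases x <;> cases y <;> simp only [adj] <;> tauto

def G : SimpleGraph V where
  Adj := adj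
  symm := ⟨fun _ _ => adj_symm⟩
  loopless := ⟨fun x => by cases x <;> simp [adj]⟩

def isS : V → Prop
  | s _ _ => True
  | _ => False

def touch (b : Bool) (k : Fin 9) : V → Prop
  | h => False
  | s i j => cond b j i = k
  | c b' i _ => b' = b ∧ i = k

def far (b : Bool) (k : Fin 9) (a : V) : Prop := ∀ a', adj a a' → ¬ touch b k a'

def sv (b : Bool) (i j : Fin 9) : V := cond b (s j i) (s i j)

lemma adj_sv (b : Bool) (i j : Fin 9) : adj (c b i (c0 (j - i))) (sv b i j) := by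
  cases b <;> simp [sv, adj]

lemma pick2 : ∀ (i : Fin 9) (t : Fin 3) (j1 j2 : Fin 9), ∃ j, c0 (j - i) = t ∧ j1 ≠ j ∧ j2 ≠ j := by
  decide +kernel

lemma sep : ∀ (i : Fin 9) (t : Fin 3) (i' : Fin 9) (t' : Fin 3), ¬ (i' = i ∧ t' = t) →
    ∃ j, c0 (j - i) = t ∧ c0 (j - i') ≠ t' := by
  decide +kernel

lemma farS {b : Bool} {k i j : Fin 9} (e : cond b j i ≠ k) : far b k (s i j) := by
  rintro (_ | _ | ⟨b', i', t⟩) ha <;> simp only [adj, touch] at ha ⊢
  · exact id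
  · rintro ⟨rfl, rfl⟩; exact e ha.1.symm

lemma farO {b : Bool} {k i : Fin 9} {t : Fin 3} (e : i ≠ k) : far b k (c b i t) := by
  rintro (_ | _ | ⟨b', i', t⟩) ha <;> simp only [adj, touch] at ha ⊢
  · rw [← ha.1]; exact e
  · rintro ⟨-, rfl⟩; exact e ha.2.1

lemma farC {b : Bool} {k i : Fin 9} {t : Fin 3} (e : c0 (k - i) ≠ t) : far (!b) k (c b i t) := by
  rintro (_ | _ | ⟨b', i', t⟩) ha <;> simp only [adj, touch] at ha ⊢
  · rintro rfl; cases b <;> exact e ha.2.symm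
  · rintro ⟨rfl, -⟩; simp at ha

lemma pick1 (b : Bool) (i : Fin 9) (t : Fin 3) (a : V) (h1 : a ≠ h) (h2 : a ≠ c b i t) :
    ∃ j, c0 (j - i) = t ∧ far (!b) j a := by
  rcases a with _ | ⟨p, q⟩ | ⟨b', i', t'⟩
  · exact absurd rfl h1
  · obtain ⟨j, e1, e2, -⟩ := pick2 i t (cond (!b) q p) 0
    exact ⟨j, e1, farS e2⟩
  · by_cases e : b' = b
    · subst e
      obtain ⟨j, e1, e2⟩ := sep i t i' t' (by rintro ⟨rfl, rfl⟩; exact h2 rfl)
      exact ⟨j, e1, farC e2⟩
    · obtain rfl : b' = !b := by cases b <;> cases b' <;> simp_all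
      obtain ⟨j, e1, e2, -⟩ := pick2 i t i' 0
      exact ⟨j, e1, farO e2⟩

def SafeC (x y : V) (b : Bool) (i : Fin 9) (t : Fin 3) : Prop :=
  (¬ adj x (c b i t) ∧ x ≠ c b i t) ∧ (¬ adj y (c b i t) ∧ y ≠ c b i t) ∧
    ¬ (isS x ∧ isS y ∧ (touch b i x ∨ touch b i y))

def Safe (x y : V) : V → Prop
  | h => False
  | s i j => ∃ b, far b (cond b j i) x ∧ far b (cond b j i) y
  | c b i t => SafeC x y b i t

lemma safe_sv {x y : V} {b : Bool} {i j : Fin 9} (hx : far (!b) j x) (hy : far (!b) j y) :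
    Safe x y (sv b i j) := by
  cases b
  · exact ⟨true, hx, hy⟩
  · exact ⟨false, hx, hy⟩

lemma safeC_of {x y : V} {b : Bool} {i : Fin 9} (t : Fin 3) (hx : ¬ touch b i x)
    (hy : ¬ touch b i y) : SafeC x y b i t := by
  have : ∀ x, ¬ touch b i x → ¬ adj x (c b i t) ∧ x ≠ c b i t := by
    rintro (_ | _ | _) hx <;> simp only [touch, adj] at hx ⊢ <;> refine ⟨?_, ?_⟩
    · exact id
    · simp
    · exact fun e => hx e.1.symm
    · simp
    · tauto
    · intro e; injection e; tauto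
  exact ⟨this x hx, this y hy, by tauto⟩

lemma Safe.symm {x y r : V} (e : Safe x y r) : Safe y x r := by
  rcases r with _ | _ | _
  · exact e
  · obtain ⟨b, h1, h2⟩ := e; exact ⟨b, h2, h1⟩
  · exact ⟨e.2.1, e.1, fun w => e.2.2 (by tauto)⟩

lemma Safe.ne {x y r x' : V} (e : Safe x y r) (hx : adj x x') : x ≠ r ∧ x' ≠ r := by
  rcases r with _ | ⟨i, j⟩ | _
  · exact e.elim
  · obtain ⟨b, h1, -⟩ := e
    refine ⟨?_, ?_⟩
    · rintro rfl; exact h1 (c b (cond b j i) _) ⟨rfl, rfl⟩ ⟨rfl, rfl⟩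
    · rintro rfl; exact h1 _ hx rfl
  · exact ⟨e.1.2, by rintro rfl; exact e.1.1 hx⟩

lemma enter {x y y' : V} {b : Bool} {i : Fin 9} {t t' : Fin 3} (e : SafeC x y b i t)
    (hx : adj x (c b i t')) (hy : adj y y') : ∃ r', adj (c b i t) r' ∧ Safe (c b i t') y' r' := by
  have ht : t ≠ t' := by rintro rfl; exact e.1.1 hx
  have h1 : isS x ∧ touch b i x := by
    rcases x with _ | _ | ⟨b1, i1, t1⟩
    · exact hx.elim
    · exact ⟨trivial, hx.1.symm⟩
    · obtain ⟨rfl, rfl, -⟩ := hx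
      exact (e.1.1 ⟨rfl, rfl, by rintro rfl; exact e.1.2 rfl⟩).elim
  have h2 : y' ≠ h := by
    rintro rfl
    rcases y with _ | _ | _
    exacts [hy, e.2.2 ⟨h1.1, trivial, .inl h1.2⟩, hy]
  obtain ⟨j, rfl, e2⟩ := pick1 b i t y' h2 (by rintro rfl; exact e.2.1.1 hy)
  exact ⟨_, adj_sv b i j, safe_sv (farC ht) e2⟩

lemma stay {x y : V} {b : Bool} {i : Fin 9} (t : Fin 3) (hx : ∀ t', x ≠ c b i t')
    (hy : ¬ touch b i y) (hS : ¬ isS y) : ∃ r', adj (c b i t) r' ∧ Safe x y r' := by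
  have : ∀ t u : Fin 3, ∃ w, t ≠ w ∧ w ≠ u := by decide
  rcases x with _ | ⟨p, q⟩ | ⟨b1, i1, t1⟩
  · obtain ⟨w, h1, -⟩ := this t t
    exact ⟨c b i w, ⟨rfl, rfl, h1⟩, safeC_of w id hy⟩
  · obtain ⟨w, h1, h2⟩ := this t (c0 (cond b p q - i))
    exact ⟨c b i w, ⟨rfl, rfl, h1⟩, ⟨fun e => h2 e.2, hx w⟩, (safeC_of w hy hy).1, fun e => hS e.2.1⟩
  · obtain ⟨w, h1, -⟩ := this t t
    exact ⟨c b i w, ⟨rfl, rfl, h1⟩, safeC_of w (by rintro ⟨rfl, rfl⟩; exact hx _ rfl) hy⟩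

lemma main {x y x' y' r : V} (e : Safe x y r) (hx : adj x x') (hy : adj y y') :
    ∃ r', adj r r' ∧ Safe x' y' r' := by
  rcases r with _ | ⟨i, j⟩ | ⟨b, i, t⟩
  · exact e.elim
  · obtain ⟨b, h1, h2⟩ := e
    exact ⟨c b (cond b j i) _, ⟨rfl, rfl⟩, safeC_of _ (h1 _ hx) (h2 _ hy)⟩
  by_cases h1 : ∃ t', x' = c b i t'
  · obtain ⟨t', rfl⟩ := h1
    exact enter e hx hy
  by_cases h2 : ∃ t', y' = c b i t'
  · obtain ⟨t', rfl⟩ := h2
    obtain ⟨r', a, w⟩ := enter e.symm hy hx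
    exact ⟨r', a, w.symm⟩
  push Not at h1 h2
  have nt : ∀ z, (∀ t', z ≠ c b i t') → ¬ isS z → ¬ touch b i z := by
    rintro (_ | _ | _) a w
    exacts [id, (w trivial).elim, by rintro ⟨rfl, rfl⟩; exact a _ rfl]
  by_cases s2 : isS y'
  · by_cases s1 : isS x'
    · rcases x' with _ | ⟨p, q⟩ | _ <;> try exact s1.elim
      rcases y' with _ | ⟨p', q'⟩ | _ <;> try exact s2.elim
      obtain ⟨j, rfl, e1, e2⟩ := pick2 i t (cond (!b) q p) (cond (!b) q' p')
      exact ⟨_, adj_sv b i j, safe_sv (farS e1) (farS e2)⟩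
    · obtain ⟨r', a, w⟩ := stay t h2 (nt _ h1 s1) s1
      exact ⟨r', a, w.symm⟩
  · exact stay t h1 (nt _ h2 s2) s2

lemma two (p : Fin 2 → V) (r : V) (w : CopWin adj p r) : ¬ Safe (p 0) (p 1) r := by
  have nb : ∀ x, ∃ y, adj x y := by
    rintro (_ | _ | ⟨b, i, t⟩)
    exacts [⟨s 0 0, trivial⟩, ⟨h, trivial⟩, ⟨c b i (t + 1), rfl, rfl, by revert t; decide⟩]
  induction w with
  | caught p r e =>
    intro w
    rcases Fin.exists_fin_two.1 e with e | e
    exacts [(w.ne (nb _).choose_spec).1 e, (w.symm.ne (nb _).choose_spec).1 e]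
  | capture p p' r m e =>
    intro w
    rcases Fin.exists_fin_two.1 e with e | e
    exacts [(w.ne (m 0)).2 e, (w.symm.ne (m 1)).2 e]
  | step p p' r m _ ih =>
    intro w
    obtain ⟨r', a, w⟩ := main w (m 0) (m 1)
    exact ih r' a w

lemma more {k : ℕ} (hk : k ≤ 2) (p : Fin k → V) (r : V) (w : CopWin adj p r) :
    ∀ q : Fin 2 → V, (∀ i, q (i.castLE hk) = p i) → CopWin adj q r := by
  have nb : ∀ x, ∃ y, adj x y := by
    rintro (_ | _ | ⟨b, i, t⟩)
    exacts [⟨s 0 0, trivial⟩, ⟨h, trivial⟩, ⟨c b i (t + 1), rfl, rfl, by revert t; decide⟩]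
  have ext : ∀ (p p' : Fin k → V) (q : Fin 2 → V), (∀ i, adj (p i) (p' i)) →
      (∀ i, q (i.castLE hk) = p i) → ∃ q' : Fin 2 → V, (∀ i, adj (q i) (q' i)) ∧
        ∀ i, q' (i.castLE hk) = p' i := fun p p' q m e =>
    ⟨fun i => if l : i.1 < k then p' ⟨i, l⟩ else (nb (q i)).choose, fun i => by
      beta_reduce
      split_ifs with l
      · exact (e ⟨i, l⟩ : q i = _) ▸ m _
      · exact (nb _).choose_spec, fun i => by simp⟩
  induction w with
  | caught p r e => exact fun q a => .caught _ _ (e.elim fun i e => ⟨_, (a i).trans e⟩)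
  | capture p p' r m e =>
    intro q a
    obtain ⟨q', m', a'⟩ := ext p p' q m a
    exact .capture _ q' _ m' (e.elim fun i e => ⟨_, (a' i).trans e⟩)
  | step p p' r m _ ih =>
    intro q a
    obtain ⟨q', m', a'⟩ := ext p p' q m a
    exact .step _ q' _ m' fun r' e => ih r' e q' a'

lemma active {k : ℕ} (hk : k ≤ 2) (p : Fin k → V) : ¬ ∀ r, CopWin adj p r := by
  intro w
  let q : Fin 2 → V := fun i => if l : i.1 < k then p ⟨i, l⟩ else h
  have : ∀ x, ∃ j, ∀ i, j ≠ i → ¬ touch false i x := by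
    rintro (_ | ⟨i, _⟩ | ⟨_, i, _⟩)
    exacts [⟨0, fun _ _ => id⟩, ⟨i, fun _ => id⟩, ⟨i, fun _ a b => a b.2⟩]
  obtain ⟨j1, e1⟩ := this (q 0)
  obtain ⟨j2, e2⟩ := this (q 1)
  obtain ⟨i, -, a1, a2⟩ := pick2 0 0 j1 j2
  exact two q (c false i 0) (more hk p _ (w _) q fun i => by simp [q])
    (safeC_of 0 (e1 i a1) (e2 i a2))

lemma passive (r : V) : CopWin (fun x y => adj x y ∨ x = y) ![h, h] r := by
  have capS : ∀ x i j, CopWin (fun x y => adj x y ∨ x = y) ![h, x] (s i j) := fun x i j =>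
    .capture _ ![s i j, x] _ (Fin.forall_fin_two.2 ⟨.inl trivial, .inr rfl⟩) ⟨0, rfl⟩
  have capC : ∀ b i t t', CopWin (fun x y => adj x y ∨ x = y) ![h, c b i t] (c b i t') :=
    fun b i t t' => .capture _ ![h, c b i t'] _ (Fin.forall_fin_two.2 ⟨.inr rfl, by
      by_cases e : t = t'
      · exact .inr (by rw [e])
      · exact .inl ⟨rfl, rfl, e⟩⟩) ⟨1, rfl⟩
  have mv : ∀ x b i t, (∀ t', CopWin (fun x y => adj x y ∨ x = y) ![h, x] (c b i t')) →
      ∀ r', adj (c b i t) r' ∨ c b i t = r' → CopWin (fun x y => adj x y ∨ x = y) ![h, x] r' := by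
    rintro x b i t w (_ | _ | _) (e | e)
    · exact e.elim
    · cases e
    · exact capS _ _ _
    · cases e
    · obtain ⟨rfl, rfl, -⟩ := e; exact w _
    · rw [← e]; exact w _
  rcases r with _ | _ | ⟨b, i, t⟩
  · exact .caught _ _ ⟨0, rfl⟩
  · exact capS _ _ _
  · refine .step _ ![h, sv b i 0] _ (Fin.forall_fin_two.2 ⟨.inr rfl, .inl (by cases b <;> trivial)⟩)
      (mv _ b i t fun t' => ?_)
    exact .step _ ![h, c b i (c0 (0 - i))] _
      (Fin.forall_fin_two.2 ⟨.inr rfl, .inl (adj_symm (adj_sv b i 0))⟩) (mv _ b i t' (capC b i _))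

theorem result : ∃ (W : Type) (_ : Fintype W) (H : SimpleGraph W), H.Connected ∧ ¬ H.IsBipartite ∧
    copNum (fun x y => H.Adj x y ∨ x = y) < copNum H.Adj := by
  refine ⟨V, inferInstance, G, ?_, ?_, ?_⟩
  · have : ∀ x, G.Reachable h x := by
      have a : ∀ i j, G.Reachable h (s i j) := fun i j => SimpleGraph.Adj.reachable trivial
      rintro (_ | _ | ⟨b, i, t⟩)
      · rfl
      · exact a _ _
      · obtain ⟨j, rfl, -⟩ := pick2 i t 0 0
        refine .trans ?_ (SimpleGraph.Adj.reachable (adj_symm (adj_sv b i j)))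
        cases b <;> exact a _ _
    have ne : Nonempty V := ⟨h⟩
    exact ⟨fun x y => (this x).symm.trans (this y)⟩
  · rintro ⟨C⟩
    have a1 := C.valid (v := c true 0 0) (w := c true 0 1) ⟨rfl, rfl, by decide⟩
    have a2 := C.valid (v := c true 0 0) (w := c true 0 2) ⟨rfl, rfl, by decide⟩
    have a3 := C.valid (v := c true 0 1) (w := c true 0 2) ⟨rfl, rfl, by decide⟩
    omega
  · refine lt_of_le_of_lt (Nat.sInf_le (m := 2) ⟨_, passive⟩) (not_le.1 fun l => ?_)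
    obtain ⟨p, w⟩ := Nat.sInf_mem (s := {k | ∃ p : Fin k → V, ∀ r, CopWin G.Adj p r})
      ⟨_, (Fintype.equivFin V).symm, fun r => .caught _ _ ⟨_, Equiv.symm_apply_apply _ r⟩⟩
    exact active l p w

end Pool.Agent.Results.MP_bb83f1_co.No
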